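import Mathlib

/-!
# Piecewise syndeticity of `A B⁻¹` in amenable groups: a counterexample

In the (locally finite, hence amenable) group of finitary permutations of `ℕ` there are sets `A`, `B`
with `d(A) ≥ 1/2` and `d(B) = 1` such that `F A B⁻¹` is not thick for every finite set `F`.
-/

namespace Pool.Agent.Results.MP_b01501_co.NotPiecewiseSyndetic

open Pointwise

/-- `K` is nonempty and `(H, ε)`-invariant: `|hK Δ K| < ε |K|` for all `h ∈ H`. -/
def Inv {G : Type} [Group G] [DecidableEq G] (H : Finset G) (ε : ℝ) (K : Finset G) : Prop :=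
  K.Nonempty ∧ ∀ h ∈ H, ((symmDiff (K.image (fun k => h * k)) K).card : ℝ) < ε * K.card

/-- The Følner condition (amenability of a discrete group). -/
def Amenable (G : Type) [Group G] [DecidableEq G] : Prop :=
  ∀ (H : Finset G) (ε : ℝ), 0 < ε → ∃ K : Finset G, Inv H ε K

open Classical in
/-- The upper Banach density. -/
noncomputable def density {G : Type} [Group G] [DecidableEq G] (A : Set G) : ℝ :=
  sSup {α : ℝ | ∀ (H : Finset G) (ε : ℝ), 0 < ε →
    ∃ K : Finset G, Inv H ε K ∧ α * K.card ≤ ((K.filter (· ∈ A)).card : ℝ)}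

/-- `A` is thick: for every finite `H` some right translate `H x` is contained in `A`. -/
def Thick {G : Type} [Group G] (A : Set G) : Prop :=
  ∀ H : Finset G, ∃ x : G, ∀ h ∈ H, h * x ∈ A

/-! ### The group -/

/-- The group of finitary permutations of `ℕ`. -/
def FP : Subgroup (Equiv.Perm ℕ) where
  carrier := {σ | ∃ N : ℕ, ∀ x, N ≤ x → σ x = x}
  one_mem' := ⟨0, fun _ _ => rfl⟩
  mul_mem' := by
    rintro σ τ ⟨N, hN⟩ ⟨M, hM⟩
    refine ⟨max N M, fun x hx => ?_⟩
    rw [Equiv.Perm.mul_apply, hM x (le_trans (le_max_right _ _) hx),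
      hN x (le_trans (le_max_left _ _) hx)]
  inv_mem' := by
    rintro σ ⟨N, hN⟩
    refine ⟨N, fun x hx => ?_⟩
    rw [Equiv.Perm.inv_eq_iff_eq, hN x hx]

/-- `L n`: the finitary permutations fixing every `x ≥ 2 ^ (n + 1)`. -/
def L (n : ℕ) : Subgroup FP where
  carrier := {g | ∀ x, 2 ^ (n + 1) ≤ x → (g : Equiv.Perm ℕ) x = x}
  one_mem' := fun _ _ => rfl
  mul_mem' := by
    rintro σ τ hN hM x hx
    change (σ : Equiv.Perm ℕ) ((τ : Equiv.Perm ℕ) x) = x
    rw [hM x hx, hN x hx]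
  inv_mem' := by
    rintro σ hN x hx
    change (σ : Equiv.Perm ℕ)⁻¹ x = x
    rw [Equiv.Perm.inv_eq_iff_eq, hN x hx]

lemma mem_L {n : ℕ} {g : FP} :
    g ∈ L n ↔ ∀ x, 2 ^ (n + 1) ≤ x → (g : Equiv.Perm ℕ) x = x := Iff.rfl

lemma L_mono {m n : ℕ} (h : m ≤ n) : L m ≤ L n := fun _ hg x hx =>
  hg x (le_trans (Nat.pow_le_pow_right (by norm_num) (by omega)) hx)

lemma lt_of_mem {n : ℕ} {g : FP} (hg : g ∈ L n) {x : ℕ} (hx : x < 2 ^ (n + 1)) :
    (g : Equiv.Perm ℕ) x < 2 ^ (n + 1) := by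
  by_contra hcon
  push Not at hcon
  have h1 := hg _ hcon
  have h2 := (g : Equiv.Perm ℕ).injective h1
  omega

lemma L_finite (n : ℕ) : (L n : Set FP).Finite := by
  let f : L n → (Fin (2 ^ (n + 1)) → Fin (2 ^ (n + 1))) :=
    fun g i => ⟨((g : FP) : Equiv.Perm ℕ) i.val, lt_of_mem g.2 i.isLt⟩
  have hf : Function.Injective f := by
    intro g h hgh
    apply Subtype.ext
    apply Subtype.ext
    apply Equiv.ext
    intro x
    by_cases hx : x < 2 ^ (n + 1)
    · have := congrArg Fin.val (congrFun hgh ⟨x, hx⟩)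
      exact this
    · rw [g.2 x (by omega), h.2 x (by omega)]
  have : Finite (L n) := Finite.of_injective f hf
  exact Set.toFinite _

lemma exists_L (g : FP) : ∃ n, g ∈ L n := by
  obtain ⟨N, hN⟩ := g.2
  refine ⟨N, fun x hx => hN x (le_trans ?_ hx)⟩
  exact le_trans (Nat.lt_two_pow_self (n := N)).le (Nat.pow_le_pow_right (by norm_num) (by omega))

lemma exists_L_finset (H : Finset FP) : ∃ n, ∀ h ∈ H, h ∈ L n := by
  classical
  induction H using Finset.induction_on with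
  | empty => exact ⟨0, by simp⟩
  | insert a s _ ih =>
    obtain ⟨n, hn⟩ := ih
    obtain ⟨m, hm⟩ := exists_L a
    refine ⟨max n m, fun h hh => ?_⟩
    rcases Finset.mem_insert.1 hh with rfl | hh
    · exact L_mono (le_max_right _ _) hm
    · exact L_mono (le_max_left _ _) (hn h hh)

/-- A transposition as an element of `FP`. -/
def sw (a b : ℕ) : FP := ⟨Equiv.swap a b, max a b + 1, fun x hx => by
  apply Equiv.swap_apply_of_ne_of_ne <;> omega⟩

lemma sw_mem {a b n : ℕ} (ha : a < 2 ^ (n + 1)) (hb : b < 2 ^ (n + 1)) : sw a b ∈ L n :=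
  fun x hx => Equiv.swap_apply_of_ne_of_ne (by omega) (by omega)

/-- The block swap exchanging `[0, N)` and `[N, 2N)`. -/
def blockFun (N x : ℕ) : ℕ := if x < N then x + N else if x < 2 * N then x - N else x

lemma blockFun_invol (N x : ℕ) : blockFun N (blockFun N x) = x := by
  unfold blockFun
  split_ifs <;> omega

/-- The block swap with `N = 2 ^ (j + 1)`. -/
def z (j : ℕ) : FP := ⟨⟨blockFun (2 ^ (j + 1)), blockFun (2 ^ (j + 1)),
  blockFun_invol _, blockFun_invol _⟩, 2 * 2 ^ (j + 1), fun x hx => by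
    change blockFun (2 ^ (j + 1)) x = x
    unfold blockFun
    split_ifs <;> omega⟩

lemma z_apply (j x : ℕ) : (z j : Equiv.Perm ℕ) x = blockFun (2 ^ (j + 1)) x := rfl

lemma z_mem (j : ℕ) : z j ∈ L (j + 1) := by
  intro x hx
  rw [z_apply]
  unfold blockFun
  rw [pow_succ] at hx
  split_ifs <;> omega

lemma z_not_mem (j : ℕ) : z j ∉ L j := by
  intro h
  have h1 := h (2 ^ (j + 1)) le_rfl
  rw [z_apply] at h1
  unfold blockFun at h1
  have h2 : 0 < 2 ^ (j + 1) := by positivity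
  split_ifs at h1 <;> omega

lemma conj_not_mem (j : ℕ) (g : FP) (hg : g ∈ L j) (hc : (z j)⁻¹ * g * z j ∈ L j) : g = 1 := by
  apply Subtype.ext
  apply Equiv.ext
  intro x
  change (g : Equiv.Perm ℕ) x = x
  by_cases hx : x < 2 ^ (j + 1)
  · have h1 := hc (x + 2 ^ (j + 1)) (by omega)
    have h2 : (((z j)⁻¹ * g * z j : FP) : Equiv.Perm ℕ) (x + 2 ^ (j + 1)) =
        ((z j : Equiv.Perm ℕ))⁻¹ ((g : Equiv.Perm ℕ) ((z j : Equiv.Perm ℕ) (x + 2 ^ (j + 1)))) := rfl
    rw [h2, Equiv.Perm.inv_eq_iff_eq] at h1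
    have h3 : (z j : Equiv.Perm ℕ) (x + 2 ^ (j + 1)) = x := by
      rw [z_apply]; unfold blockFun; split_ifs <;> omega
    rw [h3] at h1
    exact h1
  · exact hg x (by omega)

/-! ### Non-piecewise-syndetic sets -/

/-- A convenient form of not being piecewise syndetic. -/
def NPS (D : Set FP) : Prop := ∀ i, ∃ j, i ≤ j ∧ ∀ x, ∃ h ∈ L j, ∀ f ∈ L i, f * h * x ∉ D

lemma nps_union {ι : Type} (P : ι → Set FP)
    (hu : ∀ i, ∃ j, i ≤ j ∧ ∀ a, ∀ x, ∃ h ∈ L j, ∀ f ∈ L i, f * h * x ∉ P a)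
    (hs : ∀ k a a' p p', a ≠ a' → p ∈ P a → p' ∈ P a' → p' * p⁻¹ ∈ L k → p ∈ L k) :
    NPS (⋃ a, P a) := by
  intro i
  obtain ⟨j, hij, hj⟩ := hu i
  refine ⟨j + 1, by omega, fun x => ?_⟩
  obtain ⟨h', hh', hx'⟩ : ∃ h' ∈ L (j + 1), h' * x ∉ L j := by
    by_cases hx : x ∈ L j
    · exact ⟨z j, z_mem j, fun h => z_not_mem j (by
        have := (L j).mul_mem h ((L j).inv_mem hx)
        rwa [mul_inv_cancel_right] at this)⟩
    · exact ⟨1, (L (j + 1)).one_mem, by rwa [one_mul]⟩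
  by_contra hcon
  push Not at hcon
  obtain ⟨f₀, hf₀, hm₀⟩ := hcon h' hh'
  obtain ⟨a₀, ha₀⟩ := Set.mem_iUnion.1 hm₀
  obtain ⟨h, hh, hne⟩ := hj a₀ (h' * x)
  obtain ⟨f, hf, hm⟩ := hcon (h * h') ((L (j + 1)).mul_mem (L_mono (by omega) hh) hh')
  obtain ⟨a, ha⟩ := Set.mem_iUnion.1 hm
  have hane : a₀ ≠ a := by
    rintro rfl
    apply hne f hf
    have : f * h * (h' * x) = f * (h * h') * x := by group
    rw [this]; exact ha
  have hk : (f * (h * h') * x) * (f₀ * h' * x)⁻¹ ∈ L j := by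
    have : (f * (h * h') * x) * (f₀ * h' * x)⁻¹ = f * h * f₀⁻¹ := by group
    rw [this]
    exact (L j).mul_mem ((L j).mul_mem (L_mono hij hf) hh) ((L j).inv_mem (L_mono hij hf₀))
  have h1 := hs j a₀ a _ _ hane ha₀ ha hk
  apply hx'
  have : h' * x = f₀⁻¹ * (f₀ * h' * x) := by group
  rw [this]
  exact (L j).mul_mem ((L j).inv_mem (L_mono hij hf₀)) h1

/-! ### The basic set -/

/-- The removed sets. -/
def R (i : ℕ) : Set FP := {g | ∀ x, x < 2 ^ (i + 2) →
  ((g⁻¹ : FP) : Equiv.Perm ℕ) x ≤ ((g⁻¹ : FP) : Equiv.Perm ℕ) (2 ^ (i + 1))}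

/-- The basic set. -/
def A0 : Set FP := {g | ∀ i, g ∉ R i}

lemma pow_lt (i : ℕ) : 2 ^ (i + 1) + 1 < 2 ^ (i + 2) := by
  have : 1 < 2 ^ (i + 1) := Nat.one_lt_two_pow (by omega)
  rw [pow_succ 2 (i + 1)]
  omega

lemma A0_nps : ∀ i, ∀ x, ∃ h ∈ L (i + 1), ∀ f ∈ L i, f * h * x ∉ A0 := by
  intro i x
  obtain ⟨y, hy, hmax⟩ := Finset.exists_max_image (Finset.range (2 ^ (i + 2)))
    (fun y => ((x⁻¹ : FP) : Equiv.Perm ℕ) y) ⟨0, by simp⟩
  rw [Finset.mem_range] at hy
  have hNi := pow_lt i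
  have hNi' : 2 ^ (i + 1) < 2 ^ (i + 2) := by omega
  refine ⟨sw (2 ^ (i + 1)) y, sw_mem hNi' hy, fun f hf hA => hA i ?_⟩
  intro w hw
  have hcomp : ∀ w, (((f * sw (2 ^ (i + 1)) y * x)⁻¹ : FP) : Equiv.Perm ℕ) w =
      ((x⁻¹ : FP) : Equiv.Perm ℕ) ((Equiv.swap (2 ^ (i + 1)) y) (((f⁻¹ : FP) : Equiv.Perm ℕ) w)) := by
    intro w
    have : (f * sw (2 ^ (i + 1)) y * x)⁻¹ = x⁻¹ * ((sw (2 ^ (i + 1)) y)⁻¹ * f⁻¹) := by group
    rw [this]
    rfl
  rw [hcomp, hcomp]
  have hf' : ((f⁻¹ : FP) : Equiv.Perm ℕ) (2 ^ (i + 1)) = 2 ^ (i + 1) :=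
    (L i).inv_mem hf _ le_rfl
  rw [hf', Equiv.swap_apply_left]
  apply hmax
  rw [Finset.mem_range]
  have h1 : ((f⁻¹ : FP) : Equiv.Perm ℕ) w < 2 ^ (i + 2) :=
    lt_of_mem (L_mono (show i ≤ i + 1 by omega) ((L i).inv_mem hf)) hw
  exact lt_of_mem (sw_mem (n := i + 1) (show 2 ^ (i + 1) < 2 ^ (i + 2) by omega) hy) h1

/-- `L n` as a finite set. -/
noncomputable def Lf (n : ℕ) : Finset FP := (L_finite n).toFinset

lemma mem_Lf {n : ℕ} {g : FP} : g ∈ Lf n ↔ g ∈ L n := by
  unfold Lf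
  rw [Set.Finite.mem_toFinset]
  rfl

open Classical in
lemma R_count (i n : ℕ) (hin : i < n) :
    2 ^ (i + 2) * ((Lf n).filter (· ∈ R i)).card ≤ (Lf n).card := by
  have h1 : 2 ^ (i + 2) * ((Lf n).filter (· ∈ R i)).card =
      (Finset.range (2 ^ (i + 2)) ×ˢ ((Lf n).filter (· ∈ R i))).card := by
    rw [Finset.card_product, Finset.card_range]
  rw [h1]
  have hNi := pow_lt i
  have hpow : 2 ^ (i + 2) ≤ 2 ^ (n + 1) := Nat.pow_le_pow_right (by norm_num) (by omega)
  have key : ∀ (y : ℕ) (g : FP), y < 2 ^ (i + 2) → g ∈ R i →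
      ∀ x, x < 2 ^ (i + 2) → (((sw (2 ^ (i + 1)) y * g)⁻¹ : FP) : Equiv.Perm ℕ) x ≤
        (((sw (2 ^ (i + 1)) y * g)⁻¹ : FP) : Equiv.Perm ℕ) y := by
    intro y g hy hg x hx
    have hcomp : ∀ w, (((sw (2 ^ (i + 1)) y * g)⁻¹ : FP) : Equiv.Perm ℕ) w =
        ((g⁻¹ : FP) : Equiv.Perm ℕ) ((Equiv.swap (2 ^ (i + 1)) y) w) := by
      intro w
      rw [mul_inv_rev]
      rfl
    rw [hcomp, hcomp, Equiv.swap_apply_right]
    apply hg
    exact lt_of_mem (sw_mem (n := i + 1) (show 2 ^ (i + 1) < 2 ^ (i + 2) by omega) hy) hx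
  refine Finset.card_le_card_of_injOn (fun q => sw (2 ^ (i + 1)) q.1 * q.2) ?_ ?_
  · rintro ⟨y, g⟩ hq
    obtain ⟨h2, h3⟩ := Finset.mem_product.1 (Finset.mem_coe.1 hq)
    simp only [Finset.mem_range] at h2
    have h4 := (Finset.mem_filter.1 h3).1
    rw [mem_Lf] at h4
    rw [Finset.mem_coe, mem_Lf]
    have hlt : 2 ^ (i + 1) < 2 ^ (n + 1) := by omega
    have hlt' : y < 2 ^ (n + 1) := by omega
    exact (L n).mul_mem (sw_mem hlt hlt') h4
  · rintro ⟨y, g⟩ hq ⟨y', g'⟩ hq' heq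
    obtain ⟨h2, h3⟩ := Finset.mem_product.1 (Finset.mem_coe.1 hq)
    obtain ⟨h2', h3'⟩ := Finset.mem_product.1 (Finset.mem_coe.1 hq')
    simp only [Finset.mem_range] at h2 h2'
    have k1 := key y g h2 (Finset.mem_filter.1 h3).2
    have k2 := key y' g' h2' (Finset.mem_filter.1 h3').2
    have heq : sw (2 ^ (i + 1)) y * g = sw (2 ^ (i + 1)) y' * g' := heq
    rw [← heq] at k2
    have hyy : y = y' := by
      apply (((sw (2 ^ (i + 1)) y * g)⁻¹ : FP) : Equiv.Perm ℕ).injective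
      exact le_antisymm (k2 y h2) (k1 y' h2')
    subst hyy
    have : g = g' := mul_left_cancel heq
    rw [this]

lemma R_disj (i n : ℕ) (hin : n ≤ i) (g : FP) (hg : g ∈ L n) : g ∉ R i := by
  intro hR
  have hNi := pow_lt i
  have hg' : g⁻¹ ∈ L i := (L i).inv_mem (L_mono hin hg)
  have h1 := hR (2 ^ (i + 1) + 1) hNi
  rw [hg' _ le_rfl, hg' _ (by omega)] at h1
  omega

open Classical in
lemma A0_count (n : ℕ) : (Lf n).card ≤ 2 * ((Lf n).filter (· ∈ A0)).card := by
  have hsplit : (Lf n).card = ((Lf n).filter (· ∈ A0)).card + ((Lf n).filter (· ∉ A0)).card :=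
    (Finset.card_filter_add_card_filter_not _).symm
  have hsub : (Lf n).filter (· ∉ A0) ⊆
      (Finset.range n).biUnion (fun i => (Lf n).filter (· ∈ R i)) := by
    intro g hg
    obtain ⟨h1, h2⟩ := Finset.mem_filter.1 hg
    have h3 : ∃ i, g ∈ R i := by
      by_contra hcon
      push Not at hcon
      exact h2 hcon
    obtain ⟨i, hi⟩ := h3
    rw [Finset.mem_biUnion]
    refine ⟨i, ?_, Finset.mem_filter.2 ⟨h1, hi⟩⟩
    rw [Finset.mem_range]
    by_contra hcon
    exact R_disj i n (by omega) g (mem_Lf.1 h1) hi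
  have hcard := (Finset.card_le_card hsub).trans Finset.card_biUnion_le
  have hreal : (((Lf n).filter (· ∉ A0)).card : ℝ) ≤ (Lf n).card / 2 := by
    have h1 : (((Lf n).filter (· ∉ A0)).card : ℝ) ≤
        ∑ i ∈ Finset.range n, (((Lf n).filter (· ∈ R i)).card : ℝ) := by exact_mod_cast hcard
    have h2 : ∑ i ∈ Finset.range n, (((Lf n).filter (· ∈ R i)).card : ℝ) ≤
        ∑ i ∈ Finset.range n, (Lf n).card / 4 * (1 / 2 : ℝ) ^ i := by
      refine Finset.sum_le_sum fun i hi => ?_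
      have h3 := R_count i n (Finset.mem_range.1 hi)
      have h4 : (2 : ℝ) ^ (i + 2) * (((Lf n).filter (· ∈ R i)).card : ℝ) ≤ (Lf n).card := by
        exact_mod_cast h3
      have h5 : (2 : ℝ) ^ (i + 2) = 4 * 2 ^ i := by ring
      rw [h5] at h4
      have h6 : (0 : ℝ) < 2 ^ i := by positivity
      rw [one_div, inv_pow]
      rw [← div_eq_mul_inv, le_div_iff₀ h6]
      linarith
    rw [← Finset.mul_sum] at h2
    have h7 : ∑ i ∈ Finset.range n, (1 / 2 : ℝ) ^ i ≤ 2 := by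
      have h8 : ∑ i ∈ Finset.range n, (1 / 2 : ℝ) ^ i = 2 - 2 * (1 / 2 : ℝ) ^ n := by
        rw [geom_sum_eq (by norm_num)]
        ring
      rw [h8]
      have : (0 : ℝ) < (1 / 2 : ℝ) ^ n := by positivity
      linarith
    have h9 : (0 : ℝ) ≤ (Lf n).card / 4 := by positivity
    have h10 := mul_le_mul_of_nonneg_left h7 h9
    linarith
  have h11 : ((Lf n).card : ℝ) = ((Lf n).filter (· ∈ A0)).card + ((Lf n).filter (· ∉ A0)).card := by
    exact_mod_cast hsplit
  have h12 : ((Lf n).card : ℝ) ≤ 2 * ((Lf n).filter (· ∈ A0)).card := by linarith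
  exact_mod_cast h12

/-! ### The two sets -/

/-- The pieces of `A`. -/
def pieceA (n : ℕ) : Set FP := {g | ∃ u ∈ L (2 * n), u ∈ A0 ∧ g = u * z (2 * n)}

/-- The set `A`. -/
def setA : Set FP := ⋃ n, pieceA n

/-- The set `B`. -/
def setB : Set FP := {g | ∃ n, ∃ u ∈ L (2 * n), g = u * z (2 * n + 1)}

lemma setA_nps : NPS setA := by
  apply nps_union pieceA
  · intro i
    refine ⟨i + 1, by omega, fun n x => ?_⟩
    obtain ⟨h, hh, hf⟩ := A0_nps i (x * (z (2 * n))⁻¹)
    refine ⟨h, hh, fun f hfi hP => hf f hfi ?_⟩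
    obtain ⟨u, _, hu, he⟩ := hP
    have : f * h * (x * (z (2 * n))⁻¹) = u := by
      rw [← mul_assoc, he, mul_inv_cancel_right]
    rw [this]; exact hu
  · intro k n n' p p' hne hp hp' hk
    obtain ⟨u, hu, -, rfl⟩ := hp
    obtain ⟨u', hu', -, rfl⟩ := hp'
    have hz : ∀ m, z (2 * m) ∈ L (2 * m + 1) := fun m => z_mem _
    rcases lt_or_gt_of_ne hne with h | h
    · -- n < n'
      by_cases hk' : k ≤ 2 * n'
      · exfalso
        apply z_not_mem (2 * n')
        have : z (2 * n') = u'⁻¹ * ((u' * z (2 * n')) * (u * z (2 * n))⁻¹) * u * z (2 * n) := by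
          group
        rw [this]
        exact (L _).mul_mem ((L _).mul_mem ((L _).mul_mem ((L _).inv_mem hu') (L_mono hk' hk))
          (L_mono (by omega) hu)) (L_mono (by omega) (hz n))
      · exact (L k).mul_mem (L_mono (by omega) hu) (L_mono (by omega) (hz n))
    · by_cases hk' : k ≤ 2 * n
      · exfalso
        apply z_not_mem (2 * n)
        have : z (2 * n) = u⁻¹ * ((u' * z (2 * n')) * (u * z (2 * n))⁻¹)⁻¹ * u' * z (2 * n') := by
          group
        rw [this]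
        exact (L _).mul_mem ((L _).mul_mem ((L _).mul_mem ((L _).inv_mem hu)
          ((L _).inv_mem (L_mono hk' hk))) (L_mono (by omega) hu')) (L_mono (by omega) (hz n'))
      · exact (L k).mul_mem (L_mono (by omega) hu) (L_mono (by omega) (hz n))

/-- The separation property of the translates `A β⁻¹`. -/
lemma separated (k : ℕ) (a a' b b' : FP) (ha : a ∈ setA) (ha' : a' ∈ setA) (hb : b ∈ setB)
    (hb' : b' ∈ setB) (hne : b ≠ b') (hk : (a' * b'⁻¹) * (a * b⁻¹)⁻¹ ∈ L k) : a * b⁻¹ ∈ L k := by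
  obtain ⟨n, hn⟩ := Set.mem_iUnion.1 ha
  obtain ⟨n', hn'⟩ := Set.mem_iUnion.1 ha'
  obtain ⟨u, hu, -, rfl⟩ := hn
  obtain ⟨u', hu', -, rfl⟩ := hn'
  obtain ⟨m, w, hw, rfl⟩ := hb
  obtain ⟨m', w', hw', rfl⟩ := hb'
  set e := (u' * z (2 * n') * (w' * z (2 * m' + 1))⁻¹) * (u * z (2 * n) * (w * z (2 * m + 1))⁻¹)⁻¹
    with he
  -- everything lies in `L (index + 1)`
  have ma : ∀ J, 2 * n + 1 ≤ J → u * z (2 * n) ∈ L J := fun J hJ =>
    (L J).mul_mem (L_mono (by omega) hu) (L_mono hJ (z_mem _))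
  have ma' : ∀ J, 2 * n' + 1 ≤ J → u' * z (2 * n') ∈ L J := fun J hJ =>
    (L J).mul_mem (L_mono (by omega) hu') (L_mono hJ (z_mem _))
  have mb : ∀ J, 2 * m + 2 ≤ J → w * z (2 * m + 1) ∈ L J := fun J hJ =>
    (L J).mul_mem (L_mono (by omega) hw) (L_mono hJ (z_mem _))
  have mb' : ∀ J, 2 * m' + 2 ≤ J → w' * z (2 * m' + 1) ∈ L J := fun J hJ =>
    (L J).mul_mem (L_mono (by omega) hw') (L_mono hJ (z_mem _))
  have heq : u' * z (2 * n') * (w' * z (2 * m' + 1))⁻¹ =
      e * (u * z (2 * n) * (w * z (2 * m + 1))⁻¹) := by rw [he]; group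
  by_contra hcon
  -- the largest index is at least k
  have hbig : k ≤ 2 * n ∨ k ≤ 2 * m + 1 := by
    by_contra h
    push Not at h
    exact hcon ((L k).mul_mem (ma k (by omega)) ((L k).inv_mem (mb k (by omega))))
  rcases Nat.lt_or_ge (max (2 * n) (2 * n')) (max (2 * m + 1) (2 * m' + 1)) with hJ | hJ
  · -- the largest index is odd
    rcases Nat.lt_trichotomy m m' with h | h | h
    · -- m' is the largest
      have hJ' : max (2 * m + 1) (2 * m' + 1) = 2 * m' + 1 := max_eq_right (by omega)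
      rw [hJ'] at hJ
      have hn1 : 2 * n + 1 ≤ 2 * m' + 1 := by have := le_max_left (2 * n) (2 * n'); omega
      have hn2 : 2 * n' + 1 ≤ 2 * m' + 1 := by have := le_max_right (2 * n) (2 * n'); omega
      have hk1 : k ≤ 2 * m' + 1 := by omega
      apply z_not_mem (2 * m' + 1)
      have h3 : (w' * z (2 * m' + 1))⁻¹ = (u' * z (2 * n'))⁻¹ *
          (e * (u * z (2 * n) * (w * z (2 * m + 1))⁻¹)) := by rw [← heq]; group
      have h4 : w' * z (2 * m' + 1) ∈ L (2 * m' + 1) := by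
        rw [← inv_inv (w' * z (2 * m' + 1)), h3]
        exact (L _).inv_mem ((L _).mul_mem ((L _).inv_mem (ma' _ hn2))
          ((L _).mul_mem (L_mono hk1 hk) ((L _).mul_mem (ma _ hn1)
            ((L _).inv_mem (mb _ (by omega))))))
      have h5 : z (2 * m' + 1) = w'⁻¹ * (w' * z (2 * m' + 1)) := by group
      rw [h5]
      exact (L _).mul_mem ((L _).inv_mem (L_mono (by omega) hw')) h4
    · -- m = m'
      subst h
      rw [max_self] at hJ
      have hn1 : 2 * n + 1 ≤ 2 * m + 1 := by have := le_max_left (2 * n) (2 * n'); omega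
      have hn2 : 2 * n' + 1 ≤ 2 * m + 1 := by have := le_max_right (2 * n) (2 * n'); omega
      have hk1 : k ≤ 2 * m + 1 := by omega
      have h3 : (z (2 * m + 1))⁻¹ * (w'⁻¹ * w) * z (2 * m + 1) =
          (u' * z (2 * n'))⁻¹ * (e * (u * z (2 * n))) := by
        have h4 : e * (u * z (2 * n)) = u' * z (2 * n') * (w' * z (2 * m + 1))⁻¹ *
            (w * z (2 * m + 1)) := by rw [heq]; group
        rw [h4]; group
      have h6 : w'⁻¹ * w = 1 := by
        apply conj_not_mem (2 * m + 1)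
        · exact (L _).mul_mem ((L _).inv_mem (L_mono (by omega) hw')) (L_mono (by omega) hw)
        · rw [h3]
          exact (L _).mul_mem ((L _).inv_mem (ma' _ hn2))
            ((L _).mul_mem (L_mono hk1 hk) (ma _ hn1))
      apply hne
      have h7 : w = w' := by
        have := congrArg (fun t => w' * t) h6
        simpa using this
      rw [h7]
    · -- m is the largest
      have hJ' : max (2 * m + 1) (2 * m' + 1) = 2 * m + 1 := max_eq_left (by omega)
      rw [hJ'] at hJ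
      have hn1 : 2 * n + 1 ≤ 2 * m + 1 := by have := le_max_left (2 * n) (2 * n'); omega
      have hn2 : 2 * n' + 1 ≤ 2 * m + 1 := by have := le_max_right (2 * n) (2 * n'); omega
      have hk1 : k ≤ 2 * m + 1 := by omega
      apply z_not_mem (2 * m + 1)
      have h3 : w * z (2 * m + 1) = (u' * z (2 * n') * (w' * z (2 * m' + 1))⁻¹)⁻¹ *
          (e * (u * z (2 * n))) := by rw [heq]; group
      have h4 : w * z (2 * m + 1) ∈ L (2 * m + 1) := by
        rw [h3]
        exact (L _).mul_mem ((L _).inv_mem ((L _).mul_mem (ma' _ hn2)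
          ((L _).inv_mem (mb' _ (by omega))))) ((L _).mul_mem (L_mono hk1 hk) (ma _ hn1))
      have h5 : z (2 * m + 1) = w⁻¹ * (w * z (2 * m + 1)) := by group
      rw [h5]
      exact (L _).mul_mem ((L _).inv_mem (L_mono (by omega) hw)) h4
  · -- the largest index is even
    rcases Nat.lt_trichotomy n n' with h | h | h
    · have hJ' : max (2 * n) (2 * n') = 2 * n' := max_eq_right (by omega)
      rw [hJ'] at hJ
      have hm1 : 2 * m + 2 ≤ 2 * n' := by have := le_max_left (2 * m + 1) (2 * m' + 1); omega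
      have hm2 : 2 * m' + 2 ≤ 2 * n' := by have := le_max_right (2 * m + 1) (2 * m' + 1); omega
      have hk1 : k ≤ 2 * n' := by omega
      apply z_not_mem (2 * n')
      have h3 : u' * z (2 * n') = e * (u * z (2 * n) * (w * z (2 * m + 1))⁻¹) *
          (w' * z (2 * m' + 1)) := by rw [← heq]; group
      have h4 : u' * z (2 * n') ∈ L (2 * n') := by
        rw [h3]
        exact (L _).mul_mem ((L _).mul_mem (L_mono hk1 hk) ((L _).mul_mem (ma _ (by omega))
          ((L _).inv_mem (mb _ hm1)))) (mb' _ hm2)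
      have h5 : z (2 * n') = u'⁻¹ * (u' * z (2 * n')) := by group
      rw [h5]
      exact (L _).mul_mem ((L _).inv_mem hu') h4
    · subst h
      rw [max_self] at hJ
      have hm1 : 2 * m + 2 ≤ 2 * n := by have := le_max_left (2 * m + 1) (2 * m' + 1); omega
      have hm2 : 2 * m' + 2 ≤ 2 * n := by have := le_max_right (2 * m + 1) (2 * m' + 1); omega
      have hk1 : k ≤ 2 * n := by omega
      have h3 : (z (2 * n))⁻¹ * (u'⁻¹ * e * u) * z (2 * n) =
          (w' * z (2 * m' + 1))⁻¹ * (w * z (2 * m + 1)) := by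
        have h4 : e * (u * z (2 * n)) = u' * z (2 * n) * (w' * z (2 * m' + 1))⁻¹ *
            (w * z (2 * m + 1)) := by rw [heq]; group
        have h5 : (z (2 * n))⁻¹ * (u'⁻¹ * e * u) * z (2 * n) =
            (z (2 * n))⁻¹ * u'⁻¹ * (e * (u * z (2 * n))) := by group
        rw [h5, h4]; group
      have h6 : u'⁻¹ * e * u = 1 := by
        apply conj_not_mem (2 * n)
        · exact (L _).mul_mem ((L _).mul_mem ((L _).inv_mem hu') (L_mono hk1 hk)) hu
        · rw [h3]
          exact (L _).mul_mem ((L _).inv_mem (mb' _ hm2)) (mb _ hm1)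
      rw [h6, mul_one, inv_mul_cancel] at h3
      exact hne (inv_mul_eq_one.1 h3.symm).symm
    · have hJ' : max (2 * n) (2 * n') = 2 * n := max_eq_left (by omega)
      rw [hJ'] at hJ
      have hm1 : 2 * m + 2 ≤ 2 * n := by have := le_max_left (2 * m + 1) (2 * m' + 1); omega
      have hm2 : 2 * m' + 2 ≤ 2 * n := by have := le_max_right (2 * m + 1) (2 * m' + 1); omega
      have hk1 : k ≤ 2 * n := by omega
      apply z_not_mem (2 * n)
      have h3 : u * z (2 * n) = e⁻¹ * (u' * z (2 * n') * (w' * z (2 * m' + 1))⁻¹) *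
          (w * z (2 * m + 1)) := by rw [heq]; group
      have h4 : u * z (2 * n) ∈ L (2 * n) := by
        rw [h3]
        exact (L _).mul_mem ((L _).mul_mem ((L _).inv_mem (L_mono hk1 hk))
          ((L _).mul_mem (ma' _ (by omega)) ((L _).inv_mem (mb' _ hm2)))) (mb _ hm1)
      have h5 : z (2 * n) = u⁻¹ * (u * z (2 * n)) := by group
      rw [h5]
      exact (L _).mul_mem ((L _).inv_mem hu) h4

lemma product_nps : NPS (setA * setB⁻¹) := by
  have hU : setA * setB⁻¹ = ⋃ b : setB, {g | g * (b : FP) ∈ setA} := by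
    ext g
    rw [Set.mem_mul, Set.mem_iUnion]
    constructor
    · rintro ⟨a, ha, b, hb, rfl⟩
      refine ⟨⟨b⁻¹, hb⟩, ?_⟩
      change a * b * b⁻¹ ∈ setA
      rwa [mul_inv_cancel_right]
    · rintro ⟨⟨b, hb⟩, h⟩
      exact ⟨g * b, h, b⁻¹, by rwa [Set.inv_mem_inv], by group⟩
  rw [hU]
  apply nps_union
  · intro i
    obtain ⟨j, hij, hj⟩ := setA_nps i
    refine ⟨j, hij, fun b x => ?_⟩
    obtain ⟨h, hh, hf⟩ := hj (x * b)
    refine ⟨h, hh, fun f hfi hP => hf f hfi ?_⟩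
    have hP : f * h * x * b ∈ setA := hP
    rw [← mul_assoc]; exact hP
  · rintro k ⟨b, hb⟩ ⟨b', hb'⟩ p p' hne hp hp' hk
    have hp : p * b ∈ setA := hp
    have hp' : p' * b' ∈ setA := hp'
    have hne' : b ≠ b' := fun h => hne (Subtype.ext h)
    have := separated k (p * b) (p' * b') b b' hp hp' hb hb' hne' (by
      rw [mul_inv_cancel_right, mul_inv_cancel_right]; exact hk)
    rwa [mul_inv_cancel_right] at this

/-! ### Densities -/

open Classical in
lemma inv_translate (H : Finset FP) (ε : ℝ) (hε : 0 < ε) (n : ℕ) (hH : ∀ h ∈ H, h ∈ L n) (g : FP) :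
    Inv H ε ((Lf n).image (fun k => k * g)) := by
  have hne : ((Lf n).image (fun k => k * g)).Nonempty :=
    ⟨1 * g, Finset.mem_image.2 ⟨1, mem_Lf.2 (L n).one_mem, rfl⟩⟩
  refine ⟨hne, fun h hh => ?_⟩
  have : ((Lf n).image (fun k => k * g)).image (fun k => h * k) =
      (Lf n).image (fun k => k * g) := by
    ext x
    simp only [Finset.mem_image, mem_Lf]
    constructor
    · rintro ⟨_, ⟨k, hk, rfl⟩, rfl⟩
      exact ⟨h * k, (L n).mul_mem (hH h hh) hk, by group⟩
    · rintro ⟨k, hk, rfl⟩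
      exact ⟨h⁻¹ * k * g, ⟨h⁻¹ * k, (L n).mul_mem ((L n).inv_mem (hH h hh)) hk, rfl⟩, by group⟩
  rw [this, symmDiff_self, Finset.bot_eq_empty, Finset.card_empty, Nat.cast_zero]
  have : (0 : ℝ) < ((Lf n).image (fun k => k * g)).card := by
    exact_mod_cast Finset.card_pos.2 hne
  positivity

open Classical in
lemma le_one_of_mem {A : Set FP} {α : ℝ} (h : ∀ (H : Finset FP) (ε : ℝ), 0 < ε →
    ∃ K : Finset FP, Inv H ε K ∧ α * K.card ≤ ((K.filter (· ∈ A)).card : ℝ)) : α ≤ 1 := by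
  obtain ⟨K, hK, hle⟩ := h ∅ 1 one_pos
  have h1 : (0 : ℝ) < K.card := by exact_mod_cast Finset.card_pos.2 hK.1
  have h2 : ((K.filter (· ∈ A)).card : ℝ) ≤ K.card := by exact_mod_cast Finset.card_filter_le _ _
  by_contra hcon
  push Not at hcon
  nlinarith

open Classical in
lemma density_A : 1 / 2 ≤ density setA := by
  unfold density
  refine le_csSup ⟨1, fun α h => le_one_of_mem (A := setA) ?_⟩ ?_
  · intro H ε hε
    obtain ⟨K, h1, h2⟩ := h H ε hε
    exact ⟨K, h1, h2⟩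
  · intro H ε hε
    obtain ⟨n, hn⟩ := exists_L_finset H
    have hn' : ∀ h ∈ H, h ∈ L (2 * n) := fun h hh => L_mono (by omega) (hn h hh)
    refine ⟨(Lf (2 * n)).image (fun k => k * z (2 * n)), ?_, ?_⟩
    · convert inv_translate H ε hε (2 * n) hn' (z (2 * n))
    · have hc : ((Lf (2 * n)).image (fun k => k * z (2 * n))).card = (Lf (2 * n)).card :=
        Finset.card_image_of_injective _ (mul_left_injective _)
      have hsub : ((Lf (2 * n)).filter (· ∈ A0)).image (fun k => k * z (2 * n)) ⊆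
          ((Lf (2 * n)).image (fun k => k * z (2 * n))).filter (· ∈ setA) := by
        intro x hx
        obtain ⟨k, hk, rfl⟩ := Finset.mem_image.1 hx
        obtain ⟨h1, h2⟩ := Finset.mem_filter.1 hk
        exact Finset.mem_filter.2 ⟨Finset.mem_image.2 ⟨k, h1, rfl⟩,
          Set.mem_iUnion.2 ⟨n, k, mem_Lf.1 h1, h2, rfl⟩⟩
      have h3 := Finset.card_le_card hsub
      rw [Finset.card_image_of_injective _ (mul_left_injective _)] at h3
      have h4 := A0_count (2 * n)
      have h5 : ((Lf (2 * n)).card : ℝ) ≤ 2 * (((Lf (2 * n)).image (fun k => k * z (2 * n))).filter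
          (· ∈ setA)).card := by
        have : (Lf (2 * n)).card ≤ 2 * (((Lf (2 * n)).image (fun k => k * z (2 * n))).filter
          (· ∈ setA)).card := by omega
        exact_mod_cast this
      have hc' : (((Lf (2 * n)).image (fun k => k * z (2 * n))).card : ℝ) = (Lf (2 * n)).card := by
        exact_mod_cast hc
      have h6 : (1 / 2 : ℝ) * (((Lf (2 * n)).image (fun k => k * z (2 * n))).card : ℝ) ≤
          (((Lf (2 * n)).image (fun k => k * z (2 * n))).filter (· ∈ setA)).card := by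
        rw [hc']; linarith
      convert h6

open Classical in
lemma density_B : density setB = 1 := by
  unfold density
  apply le_antisymm
  · refine csSup_le ⟨0, fun H ε hε => ?_⟩ (fun α h => le_one_of_mem (A := setB) ?_)
    · obtain ⟨n, hn⟩ := exists_L_finset H
      refine ⟨(Lf n).image (fun k => k * 1), ?_, by simp⟩
      convert inv_translate H ε hε n hn 1
    · intro H ε hε
      obtain ⟨K, h1, h2⟩ := h H ε hε
      exact ⟨K, h1, h2⟩
  · refine le_csSup ⟨1, fun α h => le_one_of_mem (A := setB) ?_⟩ ?_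
    · intro H ε hε
      obtain ⟨K, h1, h2⟩ := h H ε hε
      exact ⟨K, h1, h2⟩
    · intro H ε hε
      obtain ⟨n, hn⟩ := exists_L_finset H
      have hn' : ∀ h ∈ H, h ∈ L (2 * n) := fun h hh => L_mono (by omega) (hn h hh)
      refine ⟨(Lf (2 * n)).image (fun k => k * z (2 * n + 1)), ?_, ?_⟩
      · convert inv_translate H ε hε (2 * n) hn' (z (2 * n + 1))
      · rw [one_mul, Finset.filter_true_of_mem]
        intro x hx
        obtain ⟨k, hk, rfl⟩ := Finset.mem_image.1 hx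
        exact ⟨n, k, mem_Lf.1 hk, rfl⟩

/-- **A counterexample.** There are an amenable group `G` and `A, B ⊆ G` with `d(A) ≥ 1/2` and
`d(B) = 1` such that `F A B⁻¹` is not thick for every finite `F ⊆ G`; that is, `A B⁻¹` is not
piecewise `k`-syndetic for any `k`. -/
theorem result : ∃ (G : Type) (_ : Group G) (_ : DecidableEq G), Amenable G ∧
    ∃ A B : Set G, 1 / 2 ≤ density A ∧ density B = 1 ∧
      ∀ F : Set G, F.Finite → ¬ Thick (F * (A * B⁻¹)) := by
  classical
  refine ⟨FP, inferInstance, inferInstance, ?_, setA, setB, ?_, ?_, ?_⟩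
  · intro H ε hε
    obtain ⟨n, hn⟩ := exists_L_finset H
    refine ⟨(Lf n).image (fun k => k * 1), ?_⟩
    convert inv_translate H ε hε n hn 1
  · convert density_A
  · convert density_B
  · intro F hF hT
    obtain ⟨i, hi⟩ := exists_L_finset hF.toFinset
    have hi' : ∀ f ∈ F, f ∈ L i := fun f hf => hi f (by rwa [Set.Finite.mem_toFinset])
    obtain ⟨j, -, hj⟩ := product_nps i
    obtain ⟨x, hx⟩ := hT (Lf j)
    obtain ⟨h, hh, hf⟩ := hj x
    obtain ⟨f, hfF, d, hd, he⟩ := Set.mem_mul.1 (hx h (mem_Lf.2 hh))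
    apply hf f⁻¹ ((L i).inv_mem (hi' f hfF))
    have : f⁻¹ * h * x = d := by
      rw [mul_assoc, ← he, inv_mul_cancel_left]
    rw [this]
    exact hd

end Pool.Agent.Results.MP_b01501_co.NotPiecewiseSyndetic
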